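import Pool.Agent.Helper98.DISC.GoalsA

set_option autoImplicit false

open Pool.Agent.Helper98.DISC MeasureTheory Set Filter Topology

noncomputable section

namespace Pool.Agent.Helper56.DISC

/-- the non-integers -/
def NI : Set ℂ := {z | ∀ m : ℤ, z ≠ m}

theorem dense_NI : Dense NI := by
  have h : (Set.range (fun m : ℤ => (m : ℂ))).Countable := Set.countable_range _
  have := h.dense_compl (𝕜 := ℝ)
  refine this.mono ?_
  intro z hz m hm
  exact hz ⟨m, hm.symm⟩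

/-- bound at the non-integers -/
def BigN (f : ℂ → ℂ) (d : ℕ) : Prop :=
  ∃ C r : ℝ, ∀ z : ℂ, z ∈ NI → r < ‖z‖ → ‖f z‖ * ‖z‖ ^ d ≤ C

/-- bound everywhere -/
def Big (f : ℂ → ℂ) (d : ℕ) : Prop :=
  ∃ C r : ℝ, ∀ z : ℂ, r < ‖z‖ → ‖f z‖ * ‖z‖ ^ d ≤ C

theorem Big.toN {f : ℂ → ℂ} {d : ℕ} (h : Big f d) : BigN f d := by
  obtain ⟨C, r, h⟩ := h
  exact ⟨C, r, fun z _ hz => h z hz⟩

theorem BigN.ext {f : ℂ → ℂ} {d : ℕ} {r0 : ℝ} (h : BigN f d)
    (hf : ∀ z : ℂ, r0 < ‖z‖ → ContinuousAt f z) : Big f d := by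
  obtain ⟨C, r, h⟩ := h
  refine ⟨C, max r r0, fun z hz => ?_⟩
  have hr : r < ‖z‖ := lt_of_le_of_lt (le_max_left _ _) hz
  have hr0 : r0 < ‖z‖ := lt_of_le_of_lt (le_max_right _ _) hz
  have hopen : IsOpen {w : ℂ | r < ‖w‖} := isOpen_lt continuous_const continuous_norm
  have hcl := dense_NI.open_subset_closure_inter hopen hr
  obtain ⟨u, hu, hlim⟩ := mem_closure_iff_seq_limit.mp hcl
  have hc : ContinuousAt (fun w : ℂ => ‖f w‖ * ‖w‖ ^ d) z :=
    ((hf z hr0).norm).mul (continuous_norm.continuousAt.pow d)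
  have hl : Tendsto (fun n => ‖f (u n)‖ * ‖u n‖ ^ d) atTop (𝓝 (‖f z‖ * ‖z‖ ^ d)) :=
    hc.tendsto.comp hlim
  refine le_of_tendsto hl (Eventually.of_forall fun n => ?_)
  exact h (u n) (hu n).2 (hu n).1

theorem BigN.weaken {f : ℂ → ℂ} {d d' : ℕ} (h : BigN f d) (hd : d' ≤ d) : BigN f d' := by
  obtain ⟨C, r, h⟩ := h
  refine ⟨C, max r 1, fun z hz hr => ?_⟩
  have hr1 : r < ‖z‖ := lt_of_le_of_lt (le_max_left _ _) hr
  have h1 : 1 < ‖z‖ := lt_of_le_of_lt (le_max_right _ _) hr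
  refine le_trans ?_ (h z hz hr1)
  exact mul_le_mul_of_nonneg_left (pow_le_pow_right₀ h1.le hd) (norm_nonneg _)

theorem BigN.mul {f g : ℂ → ℂ} {a b : ℕ} (hf : BigN f a) (hg : BigN g b) :
    BigN (fun z => f z * g z) (a + b) := by
  obtain ⟨C1, r1, h1⟩ := hf
  obtain ⟨C2, r2, h2⟩ := hg
  refine ⟨C1 * C2, max r1 r2, fun z hz hr => ?_⟩
  have hr1 : r1 < ‖z‖ := lt_of_le_of_lt (le_max_left _ _) hr
  have hr2 : r2 < ‖z‖ := lt_of_le_of_lt (le_max_right _ _) hr
  have e : ‖f z * g z‖ * ‖z‖ ^ (a + b) = (‖f z‖ * ‖z‖ ^ a) * (‖g z‖ * ‖z‖ ^ b) := by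
    rw [norm_mul, pow_add]; ring
  rw [e]
  have p1 : 0 ≤ ‖f z‖ * ‖z‖ ^ a := by positivity
  have p2 : 0 ≤ ‖g z‖ * ‖z‖ ^ b := by positivity
  exact mul_le_mul (h1 z hz hr1) (h2 z hz hr2) p2 (p1.trans (h1 z hz hr1))

theorem BigN.add {f g : ℂ → ℂ} {a : ℕ} (hf : BigN f a) (hg : BigN g a) :
    BigN (fun z => f z + g z) a := by
  obtain ⟨C1, r1, h1⟩ := hf
  obtain ⟨C2, r2, h2⟩ := hg
  refine ⟨C1 + C2, max r1 r2, fun z hz hr => ?_⟩
  have hr1 : r1 < ‖z‖ := lt_of_le_of_lt (le_max_left _ _) hr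
  have hr2 : r2 < ‖z‖ := lt_of_le_of_lt (le_max_right _ _) hr
  have e : ‖f z + g z‖ * ‖z‖ ^ a ≤ (‖f z‖ * ‖z‖ ^ a) + (‖g z‖ * ‖z‖ ^ a) := by
    rw [← add_mul]
    exact mul_le_mul_of_nonneg_right (norm_add_le _ _) (by positivity)
  exact e.trans (add_le_add (h1 z hz hr1) (h2 z hz hr2))

theorem BigN.zero' {f : ℂ → ℂ} (a : ℕ) (h : ∀ z ∈ NI, f z = 0) : BigN f a :=
  ⟨0, 0, fun z hz _ => by rw [h z hz]; simp⟩

theorem BigN.sum {ι : Type*} (s : Finset ι) (g : ι → ℂ → ℂ) (a : ℕ)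
    (h : ∀ i ∈ s, BigN (g i) a) : BigN (fun z => ∑ i ∈ s, g i z) a := by
  classical
  induction s using Finset.induction_on with
  | empty => exact BigN.zero' a (fun z _ => by simp)
  | insert i s hi ih =>
    have h1 := h i (Finset.mem_insert_self _ _)
    have h2 := ih (fun j hj => h j (Finset.mem_insert_of_mem hj))
    have := h1.add h2
    simpa [Finset.sum_insert hi] using this

theorem BigN.const_mul {f : ℂ → ℂ} {a : ℕ} (c : ℂ) (hf : BigN f a) :
    BigN (fun z => c * f z) a := by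
  obtain ⟨C, r, h⟩ := hf
  refine ⟨‖c‖ * C, r, fun z hz hr => ?_⟩
  rw [norm_mul, mul_assoc]
  exact mul_le_mul_of_nonneg_left (h z hz hr) (norm_nonneg _)

/-- decay of the first differences -/
theorem diff_one {f : ℂ → ℂ} {d : ℕ} {r0 : ℝ} (hf : ∀ z : ℂ, r0 < ‖z‖ → DifferentiableAt ℂ f z)
    (hB : Big f d) : ∃ C r : ℝ, ∀ z h : ℂ, ‖h‖ ≤ 1 → r < ‖z‖ →
      ‖f (z + h) - f z‖ * ‖z‖ ^ (d + 1) ≤ C := by
  obtain ⟨C, r, hC⟩ := hB
  refine ⟨3 * (|C| + 1) * 2 ^ d * 2, max 4 (2 * max r r0), fun z h hh hz => ?_⟩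
  have hz4 : 4 < ‖z‖ := lt_of_le_of_lt (le_max_left _ _) hz
  have hz2 : 2 * max r r0 < ‖z‖ := lt_of_le_of_lt (le_max_right _ _) hz
  have hball : ∀ w ∈ Metric.ball z (‖z‖ / 2), ‖z‖ / 2 < ‖w‖ := by
    intro w hw
    rw [Metric.mem_ball, dist_eq_norm] at hw
    have : ‖z‖ ≤ ‖w - z‖ + ‖w‖ := by
      calc ‖z‖ = ‖w - (w - z)‖ := by rw [sub_sub_cancel]
        _ ≤ ‖w‖ + ‖w - z‖ := norm_sub_le _ _
        _ = _ := by ring
    linarith
  have hzz : 0 < ‖z‖ := by linarith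
  set M : ℝ := (|C| + 1) * (2 / ‖z‖) ^ d with hM
  have hMpos : 0 < M := by positivity
  have hfM : ∀ w ∈ Metric.ball z (‖z‖ / 2), ‖f w‖ ≤ M := by
    intro w hw
    have h1 := hball w hw
    have hr : r < ‖w‖ := by
      have := le_max_left r r0
      linarith
    have h2 := hC w hr
    have hw0 : 0 < ‖w‖ := by linarith
    have h3 : ‖f w‖ ≤ C / ‖w‖ ^ d := by
      rw [le_div_iff₀ (by positivity)]; exact h2
    refine h3.trans ?_
    rw [hM, div_eq_mul_inv, ← inv_pow]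
    have h4 : ‖w‖⁻¹ ≤ 2 / ‖z‖ := by
      rw [show (2 : ℝ) / ‖z‖ = (‖z‖ / 2)⁻¹ by rw [inv_div]]
      exact inv_anti₀ (by positivity) h1.le
    have h5 : C ≤ |C| + 1 := by linarith [le_abs_self C]
    have h6 : (‖w‖⁻¹) ^ d ≤ (2 / ‖z‖) ^ d := pow_le_pow_left₀ (by positivity) h4 d
    exact mul_le_mul h5 h6 (by positivity) (by positivity)
  have hd : DifferentiableOn ℂ f (Metric.ball z (‖z‖ / 2)) := by
    intro w hw
    refine (hf w ?_).differentiableWithinAt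
    have h1 := hball w hw
    have := le_max_right r r0
    linarith
  have hzmem : z ∈ Metric.ball z (‖z‖ / 2) := Metric.mem_ball_self (by positivity)
  have hmaps : MapsTo f (Metric.ball z (‖z‖ / 2)) (Metric.closedBall (f z) (3 * M)) := by
    intro w hw
    rw [Metric.mem_closedBall, dist_eq_norm]
    calc ‖f w - f z‖ ≤ ‖f w‖ + ‖f z‖ := norm_sub_le _ _
      _ ≤ M + M := add_le_add (hfM w hw) (hfM z hzmem)
      _ ≤ 3 * M := by linarith
  have hmem : z + h ∈ Metric.ball z (‖z‖ / 2) := by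
    rw [Metric.mem_ball, dist_eq_norm, add_sub_cancel_left]
    linarith
  have key := Complex.dist_le_div_mul_dist_of_mapsTo_ball hd hmaps hmem
  rw [dist_eq_norm, dist_eq_norm, add_sub_cancel_left] at key
  have k2 : ‖f (z + h) - f z‖ ≤ 3 * M / (‖z‖ / 2) := by
    refine key.trans ?_
    have : 0 ≤ 3 * M / (‖z‖ / 2) := by positivity
    calc 3 * M / (‖z‖ / 2) * ‖h‖ ≤ 3 * M / (‖z‖ / 2) * 1 := mul_le_mul_of_nonneg_left hh this
      _ = _ := mul_one _
  calc ‖f (z + h) - f z‖ * ‖z‖ ^ (d + 1) ≤ (3 * M / (‖z‖ / 2)) * ‖z‖ ^ (d + 1) :=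
        mul_le_mul_of_nonneg_right k2 (by positivity)
    _ = 3 * (|C| + 1) * 2 ^ d * 2 := by
        rw [hM, div_pow, pow_succ]
        field_simp

theorem second_diff {f : ℂ → ℂ} {d : ℕ} {r0 : ℝ}
    (hf : ∀ z : ℂ, r0 < ‖z‖ → DifferentiableAt ℂ f z)
    (hB : Big f d) : BigN (fun z => f (z + 1) + f (z - 1) - 2 * f z) (d + 1) := by
  obtain ⟨C, r, h⟩ := diff_one hf hB
  refine ⟨C + C, r, fun z _ hz => ?_⟩
  have h1 := h z 1 (by simp) hz
  have h2 := h z (-1) (by simp) hz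
  have e : f (z + 1) + f (z - 1) - 2 * f z = (f (z + 1) - f z) + (f (z + -1) - f z) := by
    rw [← sub_eq_add_neg]; ring
  show ‖f (z + 1) + f (z - 1) - 2 * f z‖ * ‖z‖ ^ (d + 1) ≤ C + C
  rw [e]
  refine le_trans ?_ (add_le_add h1 h2)
  rw [← add_mul]
  exact mul_le_mul_of_nonneg_right (norm_add_le _ _) (by positivity)

/-- the exponents -/
def ee (j : ℕ) : ℕ := if j ≤ 1 then j else 2 * j

theorem NI_add {z : ℂ} (hz : z ∈ NI) : z + 1 ∈ NI := by
  intro m hm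
  refine hz (m - 1) ?_
  push_cast
  linear_combination hm

theorem NI_sub {z : ℂ} (hz : z ∈ NI) : z - 1 ∈ NI := by
  intro m hm
  refine hz (m + 1) ?_
  push_cast
  linear_combination hm

theorem diffAt (hD : S_DIF) (k : ℕ) : ∀ z : ℂ, (k : ℝ) < ‖z‖ → DifferentiableAt ℂ (yk k) z :=
  fun z hz => hD k z (by linarith)

/-- the terms of the recursion -/
def trm (x : ℕ × ℕ) (z : ℂ) : ℂ :=
  (x.1 * yk x.1 z) * (yk x.2 (z + 1) + yk x.2 (z - 1) - 2 * yk x.2 z)

theorem big_all (hR : S_RR) (hD : S_DIF) (k : ℕ) : Big (yk k) (ee k) := by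
  induction k using Nat.strong_induction_on with
  | _ k ih =>
    have hcont : ∀ z : ℂ, (k : ℝ) < ‖z‖ → ContinuousAt (yk k) z :=
      fun z hz => (diffAt hD k z hz).continuousAt
    refine BigN.ext (r0 := (k : ℝ)) ?_ hcont
    rcases (by omega : k = 0 ∨ k = 1 ∨ k = 2 ∨ 3 ≤ k) with h | h | h | h
    · subst h
      exact BigN.zero' _ (fun z hz => (hR z hz).1)
    · subst h
      refine ⟨1, 0, fun z hz h0 => ?_⟩
      rw [(hR z hz).2.1, norm_inv, show ee 1 = 1 by rfl, pow_one, inv_mul_cancel₀ h0.ne']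
    · subst h
      refine ⟨2, 2, fun z hz h0 => ?_⟩
      have h2 := (hR z hz).2.2 2 le_rfl
      have hp := NI_add hz
      have hm := NI_sub hz
      have z0 : z ≠ 0 := by simpa using hz 0
      have z1 : z + 1 ≠ 0 := by simpa using hp 0
      have z2 : z - 1 ≠ 0 := by simpa using hm 0
      rw [show Finset.HasAntidiagonal.antidiagonal 2 = {(0, 2), (1, 1), (2, 0)} by rfl] at h2
      rw [Finset.sum_insert (by decide), Finset.sum_insert (by decide), Finset.sum_singleton] at h2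
      simp only [(hR z hz).1, (hR z hz).2.1, (hR _ hp).1, (hR _ hp).2.1, (hR _ hm).1,
        (hR _ hm).2.1] at h2
      have e : yk 2 z = (z ^ 2 * ((z + 1) * (z - 1)))⁻¹ := by
        have : yk 2 z = z⁻¹ * ((z + 1)⁻¹ + (z - 1)⁻¹ - 2 * z⁻¹) / 2 := by
          push_cast at h2
          linear_combination h2 / 2
        rw [this]
        field_simp
        ring
      have h4 : ‖z‖ ^ 2 - 1 ≤ ‖(z + 1) * (z - 1)‖ := by
        calc ‖z‖ ^ 2 - 1 = ‖z ^ 2‖ - ‖(1 : ℂ)‖ := by simp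
          _ ≤ ‖z ^ 2 - 1‖ := norm_sub_norm_le _ _
          _ = _ := by congr 1; ring
      have h5 : 0 < ‖z‖ := by linarith
      have h6 : ‖z‖ ^ 2 / 2 ≤ ‖(z + 1) * (z - 1)‖ := by nlinarith
      have h7 : 0 < ‖(z + 1) * (z - 1)‖ := lt_of_lt_of_le (by positivity) h6
      rw [e, norm_inv, norm_mul, norm_pow, show ee 2 = 4 by rfl, inv_mul_le_iff₀ (by positivity)]
      nlinarith [sq_nonneg (‖z‖)]
    · -- the recursion
      have hek : ee k = 2 * k := by unfold ee; rw [if_neg (by omega)]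
      rw [hek]
      have hsum : BigN (fun z => ∑ x ∈ Finset.HasAntidiagonal.antidiagonal k, trm x z) (2 * k) := by
        refine BigN.sum _ trm _ ?_
        rintro ⟨a, b⟩ hab
        have hab1 : a + b = k := Finset.HasAntidiagonal.mem_antidiagonal.mp hab
        clear hab
        rcases Nat.eq_zero_or_pos a with ha | ha
        · subst ha
          exact BigN.zero' _ (fun z _ => by simp [trm])
        rcases Nat.eq_zero_or_pos b with hb | hb
        · subst hb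
          refine BigN.zero' _ (fun z hz => ?_)
          show ((a : ℂ) * yk a z) * (yk 0 (z + 1) + yk 0 (z - 1) - 2 * yk 0 z) = 0
          rw [(hR _ (NI_add hz)).1, (hR _ (NI_sub hz)).1, (hR _ hz).1]
          simp
        have i1 := ih a (by omega)
        have i2 := ih b (by omega)
        have i3 := second_diff (diffAt hD b) i2
        have i4 : BigN (trm (a, b)) (ee a + (ee b + 1)) := (BigN.const_mul (a : ℂ) i1.toN).mul i3
        refine i4.weaken ?_
        unfold ee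
        split_ifs <;> omega
      obtain ⟨C, r, hC⟩ := hsum
      refine ⟨C, r, fun z hz hr => ?_⟩
      refine le_trans ?_ (hC z hz hr)
      have h2 := (hR z hz).2.2 k (by omega)
      have h2' : ((k : ℂ) - 1) * (k * yk k z) =
          ∑ x ∈ Finset.HasAntidiagonal.antidiagonal k, trm x z := h2
      refine mul_le_mul_of_nonneg_right ?_ (by positivity)
      show ‖yk k z‖ ≤ ‖∑ x ∈ Finset.HasAntidiagonal.antidiagonal k, trm x z‖
      rw [← h2', norm_mul, norm_mul]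
      have n1 : 1 ≤ ‖((k : ℂ) - 1)‖ := by
        have : ((k : ℂ) - 1) = ((k - 1 : ℕ) : ℂ) := by
          rw [Nat.cast_sub (by omega)]; simp
        rw [this, Complex.norm_natCast]
        exact_mod_cast (by omega : 1 ≤ k - 1)
      have n2 : 1 ≤ ‖(k : ℂ)‖ := by
        rw [Complex.norm_natCast]
        exact_mod_cast (by omega : 1 ≤ k)
      have n3 : 0 ≤ ‖yk k z‖ := norm_nonneg _
      calc ‖yk k z‖ = 1 * (1 * ‖yk k z‖) := by ring
        _ ≤ _ := mul_le_mul n1 (mul_le_mul_of_nonneg_right n2 n3) (by positivity) (by positivity)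

theorem dcy (hR : S_RR) (hD : S_DIF) : S_DCY := by
  intro k hk
  have h := big_all hR hD k
  have hek : ee k = 2 * k := by unfold ee; rw [if_neg (by omega)]
  rw [hek] at h
  exact h

end Pool.Agent.Helper56.DISC
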