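import Pool.Agent.Helper98.DISC.GoalsC

set_option autoImplicit false

open Pool.Agent.Helper98.DISC MeasureTheory Set Filter Topology

noncomputable section

namespace Pool.Agent.Helper56.DISC

theorem re_pos_of_norm_lt {w : ℂ} (hw : ‖w‖ < 1) : 0 < (1 - w).re := by
  have := Complex.re_le_norm w
  simp only [Complex.sub_re, Complex.one_re]
  linarith

theorem at1_mem {w : ℂ} (hw : ‖w‖ < 1) : at1 w ∈ Ioo 0 Real.pi := by
  have h := re_pos_of_norm_lt hw
  have h2 := Complex.abs_arg_lt_pi_div_two_iff.mpr (Or.inl h)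
  rw [abs_lt] at h2
  unfold at1
  constructor <;> linarith

theorem norm_mul_exp (v : ℂ) :
    (‖v‖ : ℂ) * Complex.exp (((Complex.arg v : ℝ) : ℂ) * Complex.I) = v :=
  Complex.norm_mul_exp_arg_mul_I v

theorem exp_half : Complex.exp (((Real.pi : ℝ) : ℂ) / 2 * Complex.I) = Complex.I := by
  rw [Complex.exp_mul_I, ← Complex.ofReal_ofNat, ← Complex.ofReal_div, ← Complex.ofReal_cos,
    ← Complex.ofReal_sin, Real.cos_pi_div_two, Real.sin_pi_div_two]
  simp

theorem exp_at1 (w : ℂ) :
    (‖1 - w‖ : ℂ) * Complex.exp (((at1 w : ℝ) : ℂ) * Complex.I) = Complex.I * (1 - w) := by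
  unfold at1
  have e : (((Real.pi / 2 + Complex.arg (1 - w) : ℝ)) : ℂ) * Complex.I =
      ((Real.pi : ℝ) : ℂ) / 2 * Complex.I + ((Complex.arg (1 - w) : ℝ) : ℂ) * Complex.I := by
    push_cast; ring
  rw [e, Complex.exp_add, exp_half]
  calc (‖1 - w‖ : ℂ) * (Complex.I * Complex.exp (((Complex.arg (1 - w) : ℝ) : ℂ) * Complex.I))
      = Complex.I * ((‖1 - w‖ : ℂ) *
        Complex.exp (((Complex.arg (1 - w) : ℝ) : ℂ) * Complex.I)) := by ring
    _ = _ := by rw [norm_mul_exp]

theorem exp_at1_neg (w : ℂ) :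
    (‖1 - w‖ : ℂ) * Complex.exp (-(((at1 w : ℝ) : ℂ) * Complex.I)) =
      -Complex.I * (starRingEnd ℂ) (1 - w) := by
  have h := congrArg (starRingEnd ℂ) (exp_at1 w)
  rw [map_mul, map_mul, Complex.conj_ofReal, ← Complex.exp_conj, map_mul, Complex.conj_ofReal,
    Complex.conj_I] at h
  rw [show -(((at1 w : ℝ) : ℂ) * Complex.I) = ((at1 w : ℝ) : ℂ) * -Complex.I by ring]
  exact h

theorem norm_sq_eq (u : ℂ) : ‖u‖ ^ 2 = u.re * u.re + u.im * u.im := by
  rw [← Complex.normSq_eq_norm_sq, Complex.normSq_apply]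

theorem dtn_holds : S_DTN := by
  intro w hw
  refine ⟨at1_mem hw, fun z => ?_, fun z => ?_⟩
  · have h := exp_at1_neg w
    have e : ‖1 - w‖ * dq 1 w (at1 w) z =
        ((z - w) * (starRingEnd ℂ) (1 - z) * (-Complex.I * (starRingEnd ℂ) (1 - w))).im := by
      unfold dq
      rw [← h, ← Complex.im_ofReal_mul]
      congr 1
      ring
    rw [e]
    unfold dtn
    rw [norm_sq_eq, norm_sq_eq]
    simp only [Complex.mul_im, Complex.mul_re, Complex.sub_re, Complex.sub_im, Complex.one_re,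
      Complex.one_im, Complex.conj_re, Complex.conj_im, Complex.neg_re, Complex.neg_im,
      Complex.I_re, Complex.I_im]
    ring
  · have h := exp_at1 w
    have e : ‖1 - w‖ * dq w 1 (Real.pi - at1 w) z =
        ((z - 1) * (starRingEnd ℂ) (w - z) * (-(Complex.I * (1 - w)))).im := by
      unfold dq
      have e2 : Complex.exp (-((((Real.pi - at1 w : ℝ)) : ℂ) * Complex.I)) =
          -Complex.exp (((at1 w : ℝ) : ℂ) * Complex.I) := by
        rw [show -((((Real.pi - at1 w : ℝ)) : ℂ) * Complex.I) =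
          ((at1 w : ℝ) : ℂ) * Complex.I - ((Real.pi : ℝ) : ℂ) * Complex.I by push_cast; ring,
          Complex.exp_sub, Complex.exp_pi_mul_I, div_neg, div_one]
      rw [e2, ← h, ← Complex.im_ofReal_mul]
      congr 1
      ring
    rw [e]
    unfold dtn
    rw [norm_sq_eq, norm_sq_eq]
    simp only [Complex.mul_im, Complex.mul_re, Complex.sub_re, Complex.sub_im, Complex.one_re,
      Complex.one_im, Complex.conj_re, Complex.conj_im, Complex.neg_re, Complex.neg_im,
      Complex.I_re, Complex.I_im]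
    ring

end Pool.Agent.Helper56.DISC
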